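import Mathlib
import Pool.Agent.H879.Neg.Genus

set_option autoImplicit false

/-!
# The strong Nagata conjecture: the exceptions are controlled by their tenth largest multiplicity

Let `P 1, …, P n`, `n ≥ 4`, be very general points of the complex projective plane. `NineAbove b w`:
at most nine of the multiplicities `w i` are larger than `b`, so that the tenth largest multiplicity is
at most `b`; the NINE largest ones are arbitrary. The arithmetic genus `g` is given by
`2 g - 2 = C ^ 2 + K C`.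

(1) Let `(d; w)` be standard (`w i + w j + w l ≤ d`) with at most nine multiplicities larger than `b` and
`d ≥ 10 ^ 31 (b + 1) ^ 14`. Then every curve, irreducible or not, of this class has `C ^ 2 ≥ K C`, that is
`C ^ 2 ≥ g - 1`.

Let `C` be an irreducible curve of arithmetic genus `g ≥ 1` with `C ^ 2 ≤ 0`, of class
`d H - ∑ w i E i`. Then `C ^ 2 = 0` and `K C = 0` (so `g = 1`: the exception of the conjecture), or `C` is a
counterexample to the conjecture, and then:

(2) If at most nine of the multiplicities `w i` are larger than `b`, then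
`2 g - 2 - 2 C ^ 2 = K C - C ^ 2 < 10 ^ 39 (b + 1) ^ 16`; so the genus and `- C ^ 2` are bounded in terms of
the tenth largest multiplicity alone, whatever the degree and the number of the points are.

(3) Quadratic transformations carry the class of `C` to the class `(d1; w1)`, `d1 ≤ d`, `w1 ≤ w`, of an
irreducible curve through other very general points, with the same `C ^ 2 ≤ 0` and the same `K C > 0`, which
is standard, and for every `b` such that at most nine of the `w1 i` are larger than `b`: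
`d1 < 10 ^ 31 (b + 1) ^ 14`; the nine large multiplicities nearly exhaust the degree,
`d1 ^ 2 - ∑_I (w1 i) ^ 2 < 6 * 10 ^ 7 (b + 1) ^ 2 (d1 + b + 2)`; and the degree and the positive
multiplicities `w1 i` belong to a finite set `S b` which does not depend on the number of the points: up
to quadratic transformations there are, for all numbers of points together, at most `|S b|`
counterexamples with tenth multiplicity at most `b`.

(4) `(d1; w1)` has no `Margin`: for every `μ` (a scale) and every `T ≥ 2 ^ 43 (μ + 1) ^ 11` with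
`2 ^ 14 (μ + 1) ^ 3 ∑ v i ≤ T D`, `D = d1 - T`, where `v` is the vector of the multiplicities larger
than `μ`, the class `(D; v)` is not standard, or its self-intersection `q` is negative or so small that
for every set `S` of at most nine indices some `v i`, `i ∉ S`, has `(v i) ^ 2 > 7 q` (more precisely: it
violates `Tail`). So at every scale `μ` the multiplicities larger than `μ` alone fill the volume
`d1 ^ 2`, up to the bounded change `T` of the degree and a seventh of the square of the tenth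
multiplicity.
-/

namespace Pool.Agent.Results.MP_b180eb_ag.TenthMultiplicityAndGenus

open MvPolynomial Pool.Agent.TH167.SHDefs

/-- The degree is at least the sum of any three multiplicities. -/
def Standard {n : ℕ} (d : ℕ) (w : Fin n → ℕ) : Prop :=
  ∀ i j l : Fin n, i ≠ j → i ≠ l → j ≠ l → w i + w j + w l ≤ d

/-- At most nine of the multiplicities are larger than `b`. -/
def NineAbove {n : ℕ} (b : ℕ) (w : Fin n → ℕ) : Prop :=
  (Finset.univ.filter fun i => b < w i).card ≤ 9

/-- The degree and the multiset of the positive multiplicities. -/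
def type {n : ℕ} (d : ℕ) (w : Fin n → ℕ) : ℕ × Multiset ℕ :=
  (d, (Finset.univ.val.map w).filter (fun x => x ≠ 0))

/-- The multiplicities larger than `μ` (the others are replaced by zero). -/
def large {n : ℕ} (w : Fin n → ℕ) (μ : ℕ) : Fin n → ℕ := fun i => if μ < w i then w i else 0

/-- The self-intersection of the class `D H - ∑ v i E i`. -/
def self {n : ℕ} (D : ℕ) (v : Fin n → ℕ) : ℝ := (D : ℝ) ^ 2 - ∑ i, (v i : ℝ) ^ 2

/-- The sum of the squares of the `v j < v i` with `j ∉ S`. -/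
noncomputable def below {n : ℕ} (S : Finset (Fin n)) (v : Fin n → ℕ) (i : Fin n) : ℝ :=
  ∑ j, if j ∉ S ∧ v j < v i then (v j : ℝ) ^ 2 else 0

/-- The sum of the squares of the `v j ≥ v i` with `j ∉ S`. -/
noncomputable def atLeast {n : ℕ} (S : Finset (Fin n)) (v : Fin n → ℕ) (i : Fin n) : ℝ :=
  ∑ j, if j ∉ S ∧ v i ≤ v j then (v j : ℝ) ^ 2 else 0

/-- The condition on the multiplicities `v i` outside of a set `S` of at most nine indices. -/
def Tail {n : ℕ} (S : Finset (Fin n)) (D : ℕ) (v : Fin n → ℕ) : Prop :=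
  S.card ≤ 9 ∧ ∀ i, i ∉ S → (v i : ℝ) ^ 2 ≤ 7 * self D v ∨
    (v i : ℝ) ^ 2 ≤ 4 * (self D v + below S v i) ∨
    (S.card = 9 ∧ 2 * (v i : ℝ) * atLeast S v i ≤ D * (self D v + below S v i))

/-- The multiplicities larger than `μ` leave a margin `T`. -/
def Margin {n : ℕ} (d : ℕ) (w : Fin n → ℕ) : Prop :=
  ∃ (μ T D : ℕ) (S : Finset (Fin n)), d = D + T ∧ 2 ^ 43 * (μ + 1) ^ 11 ≤ T ∧
    2 ^ 14 * (μ + 1) ^ 3 * ∑ i, large w μ i ≤ T * D ∧
    Standard D (large w μ) ∧ ∑ i, large w μ i ^ 2 ≤ D ^ 2 ∧ Tail S D (large w μ)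

theorem tail_iff {n : ℕ} {S : Finset (Fin n)} {D : ℕ} {v : Fin n → ℕ} (h : Tail S D v) :
    H879.RV.Tail S (D : ℝ) (fun i => (v i : ℝ)) := by
  refine ⟨h.1, fun i hi => ?_⟩
  have e1 : below S v i = Pool.Agent.K4H28.TC.below S (fun i => (v i : ℝ)) i := by
    unfold below Pool.Agent.K4H28.TC.below
    refine Finset.sum_congr rfl fun j _ => ?_
    by_cases hj : j ∉ S ∧ v j < v i
    · have h2 : (v j : ℝ) < v i := by exact_mod_cast hj.2
      rw [if_pos hj, if_pos ⟨hj.1, h2⟩]
    · have h2 : ¬ (j ∉ S ∧ (v j : ℝ) < v i) := fun h' => hj ⟨h'.1, by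
        have h3 := h'.2
        exact_mod_cast h3⟩
      rw [if_neg hj, if_neg h2]
  have e2 : atLeast S v i = Pool.Agent.K4H28.TC.above S (fun i => (v i : ℝ)) i := by
    unfold atLeast Pool.Agent.K4H28.TC.above
    refine Finset.sum_congr rfl fun j _ => ?_
    by_cases hj : j ∉ S ∧ v i ≤ v j
    · have h2 : (v i : ℝ) ≤ v j := by exact_mod_cast hj.2
      rw [if_pos hj, if_pos ⟨hj.1, h2⟩]
    · have h2 : ¬ (j ∉ S ∧ (v i : ℝ) ≤ v j) := fun h' => hj ⟨h'.1, by
        have h3 := h'.2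
        exact_mod_cast h3⟩
      rw [if_neg hj, if_neg h2]
  have h1 := h.2 i hi
  rw [e1, e2] at h1
  exact h1

theorem margin_iff {n d : ℕ} {w : Fin n → ℕ} (h : Margin d w) : H879.RV.Margin d w := by
  obtain ⟨μ, T, D, S, hd, hT1, hT2, hstd, hD0, hS⟩ := h
  have e43 : (2 : ℕ) ^ 43 = 8796093022208 := by norm_num
  have e14 : (2 : ℕ) ^ 14 = 16384 := by norm_num
  rw [e43] at hT1
  rw [e14] at hT2
  exact ⟨μ, T, D, S, hd, hT1, hT2, hstd, hD0, tail_iff hS⟩

/-- The numerical estimate. -/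
theorem numeric {V x : ℤ} {d b : ℕ} (h1 : d < 10000000000000000000000000000000 * (b + 1) ^ 14)
    (h2 : V < 60000000 * (((b : ℤ) + 1) ^ 2 * (d + b + 2))) (h3 : x ≤ V + 2 * b) :
    x < 10 ^ 39 * ((b : ℤ) + 1) ^ 16 := by
  obtain ⟨y, hy⟩ : ∃ y : ℤ, y = (b : ℤ) + 1 := ⟨_, rfl⟩
  have hb : (b : ℤ) = y - 1 := by omega
  have hy1 : 1 ≤ y := by omega
  have h1' : (d : ℤ) < 10000000000000000000000000000000 * y ^ 14 := by
    rw [hy]
    exact_mod_cast h1
  have y2 : 1 ≤ y ^ 2 := one_le_pow₀ hy1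
  have y14 : 1 ≤ y ^ 14 := one_le_pow₀ hy1
  have p1 : y ≤ y ^ 14 := le_self_pow₀ hy1 (by norm_num)
  have h4 : (d : ℤ) + b + 2 ≤ 10000000000000000000000000000003 * y ^ 14 := by
    rw [hb]
    linarith
  have h5 : y ^ 2 * ((d : ℤ) + b + 2) ≤ y ^ 2 * (10000000000000000000000000000003 * y ^ 14) :=
    mul_le_mul_of_nonneg_left h4 (by linarith)
  have e1 : y ^ 2 * (10000000000000000000000000000003 * y ^ 14) =
      10000000000000000000000000000003 * y ^ 16 := by ring
  have p16 : y ≤ y ^ 16 := le_self_pow₀ hy1 (by norm_num)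
  have p16' : 1 ≤ y ^ 16 := one_le_pow₀ hy1
  rw [← hy] at h2 ⊢
  rw [hb] at h3
  rw [e1] at h5
  norm_num
  linarith

/-- The arithmetic genus `g` of the curves of class `(d; w)`: this is `2 g - 2 = C ^ 2 + K C`. -/
def twoGenusSubTwo {n : ℕ} (d : ℕ) (w : Fin n → ℕ) : ℤ := inter d w d w + interK d w

/-- The exceptions of the strong Nagata conjecture are controlled by their tenth multiplicity. -/
theorem result : ∃ S : ℕ → Finset (ℕ × Multiset ℕ), ∀ n : ℕ, 4 ≤ n →
    ∃ Z : ℕ → MvPolynomial (Fin n × Fin 2) ℂ, (∀ k, Z k ≠ 0) ∧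
    ∀ P : Fin n → Fin 2 → ℂ,
      (∀ k, MvPolynomial.eval (fun ij : Fin n × Fin 2 => P ij.1 ij.2) (Z k) ≠ 0) →
      -- (1) all curves in the standard classes of large degree
      (∀ (b d : ℕ) (w : Fin n → ℕ) (F : MvPolynomial (Fin 3) ℂ),
        Standard d w → NineAbove b w → 10 ^ 31 * (b + 1) ^ 14 ≤ d → F ≠ 0 → F ∈ sys P d w →
          interK d w ≤ inter d w d w) ∧
      -- the irreducible curves of positive genus with `C ^ 2 ≤ 0`
      ∀ (d : ℕ) (w : Fin n → ℕ) (C : MvPolynomial (Fin 3) ℂ),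
        Curve P C d w → 0 ≤ twoGenusSubTwo d w → inter d w d w ≤ 0 →
        (inter d w d w = 0 ∧ interK d w = 0) ∨
        -- (2)
        ((∀ b : ℕ, NineAbove b w →
          interK d w - inter d w d w < 10 ^ 39 * ((b : ℤ) + 1) ^ 16) ∧
        ∃ (P1 : Fin n → Fin 2 → ℂ) (d1 : ℕ) (w1 : Fin n → ℕ) (C1 : MvPolynomial (Fin 3) ℂ),
          (∀ k, MvPolynomial.eval (fun ij : Fin n × Fin 2 => P1 ij.1 ij.2) (Z k) ≠ 0) ∧
          Curve P1 C1 d1 w1 ∧ Relation.ReflTransGen Quadratic (d, w) (d1, w1) ∧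
          Standard d1 w1 ∧ d1 ≤ d ∧ (∀ i, w1 i ≤ w i) ∧
          inter d1 w1 d1 w1 = inter d w d w ∧ interK d1 w1 = interK d w ∧ 0 < interK d1 w1 ∧
          -- (3)
          (∀ b : ℕ, NineAbove b w1 → d1 < 10 ^ 31 * (b + 1) ^ 14 ∧ type d1 w1 ∈ S b ∧
            ∀ I : Finset (Fin n), I.card ≤ 9 → (∀ i, i ∉ I → w1 i ≤ b) →
              (d1 : ℤ) ^ 2 - ∑ i ∈ I, (w1 i : ℤ) ^ 2 <
                6 * 10 ^ 7 * ((b : ℤ) + 1) ^ 2 * (d1 + b + 2)) ∧
          -- (4)
          ¬ Margin d1 w1) := by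
  refine ⟨fun b => (H879.Star.finite_rem b).toFinset, fun s hs => ?_⟩
  obtain ⟨r, rfl⟩ : ∃ r, s = r + 4 := ⟨s - 4, by omega⟩
  obtain ⟨Z, hZ, h⟩ := Pool.Agent.TH167.SH.exists_fam (Fin (r + 4) × Fin 2)
  have hset : ∀ (b : ℕ) (w1 : Fin (r + 4) → ℕ) (i : Fin (r + 4)),
      i ∉ (Finset.univ.filter fun i => b < w1 i) → w1 i ≤ b := by
    intro b w1 i hi
    rw [Finset.mem_filter, not_and] at hi
    have := hi (Finset.mem_univ i)
    omega
  refine ⟨Z, hZ, fun P hP0 => ⟨fun b d w F hstd hb hd hF0 hF => ?_,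
    fun d w C hC hg h0 => ?_⟩⟩
  · have e31 : (10 : ℕ) ^ 31 = 10000000000000000000000000000000 := by norm_num
    rw [e31] at hd
    have hG : Pool.Agent.Q310.FP.GE d w := H879.Star.ge_star hs hstd hb (hset b w) hd
    exact H879.Neg.eff_le (hG ℂ P ((h _).1 hP0)) hF0 hF
  unfold twoGenusSubTwo at hg
  by_cases hK : 0 < interK d w
  swap
  · left
    constructor <;> omega
  right
  obtain ⟨P1, d1, w1, C1, hst⟩ := H879.Neg.pos_std ((h _).1 hP0) hC h0 hK
  have hG : ¬ Pool.Agent.Q310.FP.GE d1 w1 := fun hG => hst.spec (hG ℂ P1 hst.alg)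
  have hstd : Pool.Agent.Q310.FP.Standard d1 w1 := hst.std
  obtain ⟨c1, c2, c3⟩ := Pool.Agent.TH167.SH.curve_iff.1 hst.curve
  have hX : ∀ j, 1 ≤ w1 j → ∑ i, w1 i ^ 2 ≤ d1 ^ 2 + w1 j := fun j hj =>
    H879.Pos.self_int hst.alg c1 c2 c3 hj
  have key : ∀ (b : ℕ) (I : Finset (Fin (r + 4))), I.card ≤ 9 → (∀ i, i ∉ I → w1 i ≤ b) →
      _ := fun b I hI hb => H879.Neg.bounds_pos hs hstd hI hb hG hX hst.canPos
  refine ⟨fun b hb => ?_, P1, d1, w1, C1, (h _).2 hst.alg, hst.curve, hst.chain, hst.std, hst.deg,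
    hst.mult, hst.self, hst.can, hst.canPos, fun b hb => ⟨?_, ?_, fun I hI hIb => ?_⟩,
    fun hM => hG (H879.RV.ge_margin hs (margin_iff hM))⟩
  · have h9 : (Finset.univ.filter fun i => b < w1 i).card ≤ 9 := by
      refine le_trans (Finset.card_le_card fun i hi => ?_) hb
      rw [Finset.mem_filter] at hi ⊢
      exact ⟨hi.1, hi.2.trans_le (hst.mult i)⟩
    obtain ⟨k1, k2, k3⟩ := key b _ h9 (hset b w1)
    rw [← hst.self, ← hst.can]
    exact numeric k1 k2 k3
  · have k1 := (key b _ hb (hset b w1)).1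
    calc d1 < _ := k1
      _ = 10 ^ 31 * (b + 1) ^ 14 := by norm_num
  · rw [Set.Finite.mem_toFinset]
    exact ⟨r + 4, w1, hs, rfl, hstd, hb, hG⟩
  · have k2 := (key b I hI hIb).2.1
    calc _ < _ := k2
      _ = 6 * 10 ^ 7 * ((b : ℤ) + 1) ^ 2 * (d1 + b + 2) := by ring

end Pool.Agent.Results.MP_b180eb_ag.TenthMultiplicityAndGenus
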